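import Pool.Agent.R623.LM.B
import Pool.Agent.H319R3.DN.T7a

/-! Level masses of generalised Collatz maps, part 3: the harmonic relation of the window densities of a
set and of the set one step later (after `Pool.Agent.H319R3.DN.T7a`). -/

set_option autoImplicit false

namespace Pool.Agent.R623.LM
open Pool.Agent.H319R3.GC Pool.Agent.H319R3.DN Finset Filter Topology

variable {d : ℕ} {m r : ℕ → ℤ}

/-- the bijection `x → T x` between the class of `i` mod `d` and a class mod `|m_i|` -/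
theorem step (h : Adm d m r) {R : ℝ} {S S' : Set ℤ}
    (hS : ∀ x : ℤ, R < |((Tm d m r x : ℤ) : ℝ)| → (x ∈ S ↔ Tm d m r x ∈ S')) {σ : ℤ}
    (hσ : σ = 1 ∨ σ = -1) {i : ℕ} (hi : i < d) : ∃ c : ℤ, ∀ a b : ℝ,
    R < |(m i : ℝ)| * a / d - ((σ * (m i).sign * r i : ℤ) : ℝ) / d →
    nw S σ a b d i = nw S' (σ * (m i).sign)
      (|(m i : ℝ)| * a / d - ((σ * (m i).sign * r i : ℤ) : ℝ) / d)
      (|(m i : ℝ)| * b / d - ((σ * (m i).sign * r i : ℤ) : ℝ) / d) (m i).natAbs c := by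
  have hd2 := h.two_le
  have hd0 : (0 : ℝ) < d := by positivity
  have hdz : (d : ℤ) ≠ 0 := by positivity
  have hm0 := t7_ne h hi
  have hmR : 0 < |(m i : ℝ)| := abs_pos.2 (by exact_mod_cast hm0)
  obtain ⟨u, v, huv⟩ := h.cop i hi
  refine ⟨-(v * r i), fun a b hab => ?_⟩
  have hτ : σ * (m i).sign = 1 ∨ σ * (m i).sign = -1 := by
    rcases hσ with rfl | rfl <;> rcases lt_or_gt_of_ne hm0 with h1 | h1
    · right; rw [Int.sign_eq_neg_one_of_neg h1]; norm_num
    · left; rw [Int.sign_eq_one_of_pos h1]; norm_num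
    · left; rw [Int.sign_eq_neg_one_of_neg h1]; norm_num
    · right; rw [Int.sign_eq_one_of_pos h1]; norm_num
  have hbig : ∀ y : ℤ, |(m i : ℝ)| * a / d - ((σ * (m i).sign * r i : ℤ) : ℝ) / d ≤
      ((σ * (m i).sign * y : ℤ) : ℝ) → R < |(y : ℝ)| := by
    intro y hy
    refine lt_of_lt_of_le hab (hy.trans ?_)
    rcases hτ with h1 | h1 <;> rw [h1]
    · rw [one_mul]; exact le_abs_self _
    · push_cast; rw [neg_one_mul]; exact neg_le_abs _
  have hT : ∀ x : ℤ, (d : ℤ) ∣ x - i → (d : ℤ) * Tm d m r x = m i * x - r i := by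
    intro x hx
    have h1 : (x % (d : ℤ)).toNat = i := by
      have h2 : x % (d : ℤ) = i := by
        have h3 : x % (d : ℤ) = (i : ℤ) % (d : ℤ) :=
          Int.emod_eq_emod_iff_emod_sub_eq_zero.2 (Int.emod_eq_zero_of_dvd hx)
        rw [h3, Int.emod_eq_of_lt (by positivity) (by exact_mod_cast hi)]
      rw [h2]; simp
    unfold Tm
    rw [h1]
    refine Int.mul_ediv_cancel' ?_
    have h2 : m i * x - r i = m i * (x - i) + (m i * i - r i) := by ring
    rw [h2]
    exact dvd_add (Dvd.dvd.mul_left hx _) (h.adm i hi)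
  have hsg : (m i).sign * m i = |m i| := Int.sign_mul_self_eq_abs _
  have hval : ∀ x y : ℤ, (d : ℤ) * y = m i * x - r i →
      |(m i : ℝ)| * ((σ * x : ℤ) : ℝ) = d * ((σ * (m i).sign * y : ℤ) : ℝ) +
        ((σ * (m i).sign * r i : ℤ) : ℝ) := by
    intro x y hxy
    have h1 : |m i| * (σ * x) = d * (σ * (m i).sign * y) + σ * (m i).sign * r i := by
      rw [← hsg]
      linear_combination (-(σ * (m i).sign)) * hxy
    have h2 := congrArg (fun z : ℤ => (z : ℝ)) h1
    push_cast at h2 ⊢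
    exact h2
  have hwin1 : ∀ (x y : ℤ) (w : ℝ), (d : ℤ) * y = m i * x - r i →
      (w ≤ ((σ * x : ℤ) : ℝ) ↔ |(m i : ℝ)| * w / d - ((σ * (m i).sign * r i : ℤ) : ℝ) / d ≤
        ((σ * (m i).sign * y : ℤ) : ℝ)) := by
    intro x y w hxy
    have h1 := hval x y hxy
    rw [← sub_div, div_le_iff₀ hd0]
    constructor
    · intro h2
      have := mul_le_mul_of_nonneg_left h2 hmR.le
      linarith
    · intro h2
      have h3 : |(m i : ℝ)| * w ≤ |(m i : ℝ)| * ((σ * x : ℤ) : ℝ) := by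
        rw [h1]; linarith
      exact le_of_mul_le_mul_left h3 hmR
  have hcls : ∀ y : ℤ, m i ∣ d * y + r i ↔ ((m i).natAbs : ℤ) ∣ y - -(v * r i) := by
    intro y
    rw [Int.natAbs_dvd]
    constructor
    · rintro ⟨z, hz⟩
      exact ⟨v * z + u * y, by linear_combination v * hz - y * huv⟩
    · rintro ⟨z, hz⟩
      exact ⟨d * z + u * r i, by linear_combination (d : ℤ) * hz - r i * huv⟩
  unfold nw
  congr 1
  refine Set.ncard_congr (fun x _ => Tm d m r x) ?_ ?_ ?_
  · rintro x ⟨h1, h2, h3, h4⟩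
    have h5 := hT x h4
    refine ⟨(hS x (hbig _ ((hwin1 x _ a h5).1 h2))).1 h1, (hwin1 x _ a h5).1 h2, ?_, ?_⟩
    · by_contra h6
      exact absurd ((hwin1 x _ b h5).2 (not_lt.1 h6)) (not_le.2 h3)
    · rw [← hcls]
      exact ⟨x, by linear_combination h5⟩
  · rintro x x' ⟨-, -, -, h4⟩ ⟨-, -, -, h4'⟩ h5
    have h6 := hT x h4
    have h7 := hT x' h4'
    have h8 : Tm d m r x = Tm d m r x' := h5
    rw [h8] at h6
    have h9 : m i * x = m i * x' := by linear_combination h7 - h6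
    exact mul_left_cancel₀ hm0 h9
  · rintro y ⟨h1, h2, h3, h4⟩
    obtain ⟨x, hx⟩ := (hcls y).2 h4
    have hxy : (d : ℤ) * y = m i * x - r i := by linear_combination hx
    have hxi : (d : ℤ) ∣ x - i := by
      have h5 : (d : ℤ) ∣ m i * (x - i) := by
        have h6 : m i * (x - i) = d * y - (m i * i - r i) := by linear_combination -hxy
        rw [h6]
        exact dvd_sub (dvd_mul_right _ _) (h.adm i hi)
      exact (h.cop i hi).symm.dvd_of_dvd_mul_left h5
    have hTx : Tm d m r x = y := by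
      have h5 := hT x hxi
      rw [← hxy] at h5
      exact mul_left_cancel₀ hdz h5
    refine ⟨x, ⟨?_, (hwin1 x y a hxy).2 h2, ?_, hxi⟩, hTx⟩
    · rw [hS x (by rw [hTx]; exact hbig y h2), hTx]; exact h1
    · by_contra h6
      exact absurd ((hwin1 x y b hxy).1 (not_lt.1 h6)) (not_le.2 h3)

/-- `harm` from the statement of `equi_coarse` (task T6) for `B = 2` -/
theorem harm_of (h : Adm d m r) {R : ℝ} (hR : 0 ≤ R) (hT6 : ∃ L₀ C : ℝ, 1 ≤ L₀ ∧ 0 < C ∧
    ∀ S : Set ℤ, Syn d m r R S → ∀ σ : ℤ, (σ = 1 ∨ σ = -1) → ∀ a : ℝ, 0 < a → L₀ ≤ Real.log a →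
      ∀ Q : ℕ, Q ∣ PP d m → ∀ c : ℤ,
      |Q * nw S σ a (2 * a) Q c - nw S σ a (2 * a) 1 0| ≤ C * Q * a / (Real.log a) ^ 2) :
    ∃ K t₀ : ℝ, 0 < K ∧ 1 ≤ t₀ ∧
    ∀ S S' : Set ℤ, (∀ x : ℤ, R < |((Tm d m r x : ℤ) : ℝ)| → (x ∈ S ↔ Tm d m r x ∈ S')) →
      Syn d m r R S' → ∀ σ : ℤ, (σ = 1 ∨ σ = -1) → ∀ t : ℝ, t₀ ≤ t →
      |Fw S σ t - (∑ i ∈ range d, Fw S' (σ * (m i).sign) (t + Real.log (|(m i : ℝ)| / d))) / d|
        ≤ K / t ^ 2 := by
  obtain ⟨L₀, C, hL₀, hC, hE⟩ := hT6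
  have hd2 := h.two_le
  have hd0 : (0 : ℝ) < d := by positivity
  have hd1 : (1 : ℝ) ≤ d := by exact_mod_cast (by omega : 1 ≤ d)
  have hlogd : 0 ≤ Real.log d := Real.log_nonneg hd1
  refine ⟨∑ i ∈ range d, (8 * (|(r i : ℝ)| + 1) + C * |(m i : ℝ)| * 4) + 1,
    2 * Real.log d + 2 * L₀ + 1 + (R + ∑ i ∈ range d, |(r i : ℝ)|), ?_, ?_, ?_⟩
  · have : 0 ≤ ∑ i ∈ range d, (8 * (|(r i : ℝ)| + 1) + C * |(m i : ℝ)| * 4) :=
      Finset.sum_nonneg (fun i _ => by positivity)
    linarith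
  · have : 0 ≤ ∑ i ∈ range d, |(r i : ℝ)| := Finset.sum_nonneg (fun i _ => abs_nonneg _)
    linarith
  intro S S' hS hS' σ hσ t ht
  have hr0 : 0 ≤ ∑ i ∈ range d, |(r i : ℝ)| := Finset.sum_nonneg (fun i _ => abs_nonneg _)
  have ht0 : 0 < t := by linarith
  set a := Real.exp t with ha
  have ha0 : 0 < a := Real.exp_pos t
  have hainv : 1 / a ≤ 2 / t ^ 2 := by
    have h1 := Real.quadratic_le_exp_of_nonneg ht0.le
    rw [div_le_div_iff₀ ha0 (by positivity)]
    rw [← ha] at h1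
    nlinarith
  have hkey : ∀ i ∈ range d, |nw S σ a (2 * a) d i / a -
      Fw S' (σ * (m i).sign) (t + Real.log (|(m i : ℝ)| / d)) / d| ≤
      (8 * (|(r i : ℝ)| + 1) + C * |(m i : ℝ)| * 4) / t ^ 2 := by
    intro i hi'
    have hi := Finset.mem_range.1 hi'
    have hm0 := t7_ne h hi
    have hmR : 0 < |(m i : ℝ)| := abs_pos.2 (by exact_mod_cast hm0)
    have hmnat : ((m i).natAbs : ℝ) = |(m i : ℝ)| := by
      rw [Nat.cast_natAbs]; push_cast; rfl
    have hm1 : (1 : ℝ) ≤ |(m i : ℝ)| := by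
      rw [← hmnat]
      exact_mod_cast Int.natAbs_pos.2 hm0
    have hmpos : 0 < (m i).natAbs := Int.natAbs_pos.2 hm0
    have hτ : σ * (m i).sign = 1 ∨ σ * (m i).sign = -1 := by
      rcases hσ with rfl | rfl <;> rcases lt_or_gt_of_ne hm0 with h1 | h1
      · right; rw [Int.sign_eq_neg_one_of_neg h1]; norm_num
      · left; rw [Int.sign_eq_one_of_pos h1]; norm_num
      · left; rw [Int.sign_eq_neg_one_of_neg h1]; norm_num
      · right; rw [Int.sign_eq_one_of_pos h1]; norm_num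
    obtain ⟨c, hc⟩ := step h hS hσ hi
    set τ := σ * (m i).sign with hτdef
    set b := |(m i : ℝ)| * a / d with hb
    have hb0 : 0 < b := by positivity
    have hlogb : t + Real.log (|(m i : ℝ)| / d) = Real.log b := by
      rw [hb, mul_div_right_comm, Real.log_mul (by positivity) (by positivity), ha, Real.log_exp]
      ring
    have hexpb : Real.exp (t + Real.log (|(m i : ℝ)| / d)) = b := by
      rw [hlogb, Real.exp_log hb0]
    have hlogb2 : t / 2 ≤ Real.log b := by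
      rw [← hlogb, Real.log_div (by positivity) (by positivity)]
      have := Real.log_nonneg hm1
      linarith
    have hri : |(r i : ℝ)| ≤ ∑ i ∈ range d, |(r i : ℝ)| :=
      Finset.single_le_sum (f := fun i => |(r i : ℝ)|) (fun j _ => abs_nonneg _) hi'
    have hlow : R < |(m i : ℝ)| * a / d - ((σ * (m i).sign * r i : ℤ) : ℝ) / d := by
      have h1 : ((σ * (m i).sign * r i : ℤ) : ℝ) / d ≤ |(r i : ℝ)| := by
        refine (le_abs_self _).trans ?_
        rw [abs_div, abs_of_pos hd0]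
        have h1 : |((σ * (m i).sign * r i : ℤ) : ℝ)| = |(r i : ℝ)| := by
          rw [← hτdef]
          push_cast
          rw [abs_mul]
          rcases hτ with h2 | h2 <;> rw [h2] <;> norm_num
        rw [h1]
        exact div_le_self (abs_nonneg _) hd1
      have h2 : a / d ≤ |(m i : ℝ)| * a / d := by
        apply div_le_div_of_nonneg_right _ hd0.le
        nlinarith
      have h3 : a / d = Real.exp (t - Real.log d) := by
        rw [Real.exp_sub, Real.exp_log hd0]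
      have h4 := Real.add_one_le_exp (t - Real.log d)
      linarith
    have hcb := hc a (2 * a) hlow
    have e2 : |(m i : ℝ)| * (2 * a) / d = 2 * b := by rw [hb]; ring
    rw [e2] at hcb
    set e := ((τ * r i : ℤ) : ℝ) / d with he
    have heabs : |e| ≤ |(r i : ℝ)| := by
      rw [he, abs_div, abs_of_pos hd0]
      have h1 : |((τ * r i : ℤ) : ℝ)| = |(r i : ℝ)| := by
        push_cast
        rw [abs_mul]
        rcases hτ with h2 | h2 <;> rw [h2] <;> norm_num
      rw [h1]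
      exact div_le_self (abs_nonneg _) hd1
    have hs1 := t7_shift S' hτ hmpos c (b - e) (2 * b - e) b (2 * b)
    have hs2 := t7_shift S' hτ hmpos c b (2 * b) (b - e) (2 * b - e)
    have hx1 : |b - (b - e)| / ((m i).natAbs : ℝ) ≤ |(r i : ℝ)| := by
      rw [show b - (b - e) = e by ring, hmnat]
      exact (div_le_self (abs_nonneg _) hm1).trans heabs
    have hx2 : |b - e - b| / ((m i).natAbs : ℝ) ≤ |(r i : ℝ)| := by
      rw [show b - e - b = -e by ring, abs_neg, hmnat]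
      exact (div_le_self (abs_nonneg _) hm1).trans heabs
    have hx3 : |2 * b - e - 2 * b| / ((m i).natAbs : ℝ) ≤ |(r i : ℝ)| := by
      rw [show 2 * b - e - 2 * b = -e by ring, abs_neg, hmnat]
      exact (div_le_self (abs_nonneg _) hm1).trans heabs
    have hx4 : |2 * b - (2 * b - e)| / ((m i).natAbs : ℝ) ≤ |(r i : ℝ)| := by
      rw [show 2 * b - (2 * b - e) = e by ring, hmnat]
      exact (div_le_self (abs_nonneg _) hm1).trans heabs
    have hn1 : |nw S σ a (2 * a) d i - nw S' τ b (2 * b) (m i).natAbs c| ≤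
        2 * (|(r i : ℝ)| + 1) := by
      rw [hcb, abs_le]
      constructor <;> linarith
    have hn2 := hE S' hS' τ hτ b hb0 (by linarith) (m i).natAbs
      (Finset.dvd_prod_of_mem (fun i => (m i).natAbs) hi') c
    rw [hmnat] at hn2
    have hn3 : abs (nw S' τ b (2 * b) (m i).natAbs c - nw S' τ b (2 * b) 1 0 / |(m i : ℝ)|) ≤
        C * b * 4 / t ^ 2 := by
      have h1 : nw S' τ b (2 * b) (m i).natAbs c - nw S' τ b (2 * b) 1 0 / |(m i : ℝ)| =
          (|(m i : ℝ)| * nw S' τ b (2 * b) (m i).natAbs c - nw S' τ b (2 * b) 1 0) /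
            |(m i : ℝ)| := by
        field_simp
      rw [h1, abs_div, abs_abs, div_le_iff₀ hmR]
      refine hn2.trans ?_
      have h2 : (t / 2) ^ 2 ≤ Real.log b ^ 2 := by
        apply pow_le_pow_left₀ (by positivity) hlogb2
      calc C * |(m i : ℝ)| * b / Real.log b ^ 2 ≤ C * |(m i : ℝ)| * b / (t / 2) ^ 2 := by
            apply div_le_div_of_nonneg_left (by positivity) (by positivity) h2
        _ = C * b * 4 / t ^ 2 * |(m i : ℝ)| := by field_simp; ring
    have hF : Fw S' τ (t + Real.log (|(m i : ℝ)| / d)) / d =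
        nw S' τ b (2 * b) 1 0 / |(m i : ℝ)| / a := by
      unfold Fw
      rw [hexpb, hb]
      field_simp
    rw [hF, ← sub_div, abs_div, abs_of_pos ha0, div_le_iff₀ ha0]
    have hn4 : abs (nw S σ a (2 * a) d i - nw S' τ b (2 * b) 1 0 / |(m i : ℝ)|) ≤
        2 * (|(r i : ℝ)| + 1) + C * b * 4 / t ^ 2 := by
      calc abs (nw S σ a (2 * a) d i - nw S' τ b (2 * b) 1 0 / |(m i : ℝ)|) =
          abs ((nw S σ a (2 * a) d i - nw S' τ b (2 * b) (m i).natAbs c) +
            (nw S' τ b (2 * b) (m i).natAbs c - nw S' τ b (2 * b) 1 0 / |(m i : ℝ)|)) := by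
            congr 1; ring
        _ ≤ _ := (abs_add_le _ _).trans (add_le_add hn1 hn3)
    refine hn4.trans ?_
    have hb2 : b ≤ |(m i : ℝ)| * a := by
      rw [hb]
      exact div_le_self (by positivity) hd1
    have h5 : 1 ≤ 2 / t ^ 2 * a := by
      rw [div_le_iff₀ ha0] at hainv
      exact hainv
    have h6 : C * b * 4 / t ^ 2 ≤ C * (|(m i : ℝ)| * a) * 4 / t ^ 2 := by gcongr
    have h7 : (8 * (|(r i : ℝ)| + 1) + C * |(m i : ℝ)| * 4) / t ^ 2 * a =
        4 * (|(r i : ℝ)| + 1) * (2 / t ^ 2 * a) + C * (|(m i : ℝ)| * a) * 4 / t ^ 2 := by ring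
    rw [h7]
    have h8 : 4 * (|(r i : ℝ)| + 1) * 1 ≤ 4 * (|(r i : ℝ)| + 1) * (2 / t ^ 2 * a) := by
      gcongr
    have h9 : 0 ≤ |(r i : ℝ)| := abs_nonneg _
    linarith
  have hsplit : Fw S σ t = ∑ i ∈ range d, nw S σ a (2 * a) d i / a := by
    unfold Fw
    rw [← ha, nw_split S hσ (by linarith : a ≤ 2 * a) one_pos (by omega : 0 < d) 0,
      Finset.sum_div]
    refine Finset.sum_congr rfl (fun i _ => ?_)
    simp
  rw [hsplit, Finset.sum_div, ← Finset.sum_sub_distrib]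
  refine (Finset.abs_sum_le_sum_abs _ _).trans ((Finset.sum_le_sum hkey).trans ?_)
  rw [← Finset.sum_div]
  gcongr
  linarith


theorem harm (h : Adm d m r) {R : ℝ} (hR : 0 ≤ R) : ∃ K t₀ : ℝ, 0 < K ∧ 1 ≤ t₀ ∧
    ∀ S S' : Set ℤ, (∀ x : ℤ, R < |((Tm d m r x : ℤ) : ℝ)| → (x ∈ S ↔ Tm d m r x ∈ S')) →
      Syn d m r R S' → ∀ σ : ℤ, (σ = 1 ∨ σ = -1) → ∀ t : ℝ, t₀ ≤ t →
      |Fw S σ t - (∑ i ∈ range d, Fw S' (σ * (m i).sign) (t + Real.log (|(m i : ℝ)| / d))) / d|
        ≤ K / t ^ 2 := harm_of h hR (equi h hR 2)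

end Pool.Agent.R623.LM
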