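import Mathlib

/-! Level masses of generalised Collatz maps, part 4: the flux argument. -/

set_option autoImplicit false

namespace Pool.Agent.R623.LM
open Finset Filter Topology MeasureTheory

theorem integral_sq_inv {C a b : ℝ} (ha : 0 < a) (hab : a ≤ b) :
    ∫ t in a..b, C / t ^ 2 = C / a - C / b := by
  have hd : ∀ t ∈ Set.uIcc a b, HasDerivAt (fun t : ℝ => -C / t) (C / t ^ 2) t := by
    intro t ht
    rw [Set.uIcc_of_le hab] at ht
    have ht0 : t ≠ 0 := by linarith [ht.1]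
    have h1 := (hasDerivAt_inv ht0).const_mul (-C)
    have e1 : (fun t : ℝ => -C / t) = fun t => -C * t⁻¹ := by
      funext t; rw [div_eq_mul_inv]
    rw [e1]
    have e2 : C / t ^ 2 = -C * -(t ^ 2)⁻¹ := by rw [div_eq_mul_inv]; ring
    rw [e2]
    exact h1
  have hi : IntervalIntegrable (fun t : ℝ => C / t ^ 2) volume a b := by
    apply ContinuousOn.intervalIntegrable
    intro t ht
    rw [Set.uIcc_of_le hab] at ht
    have ht0 : t ≠ 0 := by linarith [ht.1]
    exact (continuousAt_const.div (continuousAt_id.pow 2) (pow_ne_zero 2 ht0)).continuousWithinAt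
  rw [intervalIntegral.integral_eq_sub_of_hasDerivAt hd hi]
  ring

theorem flux {d : ℕ} (hd : 0 < d) {ξ : ℕ → ℝ} {Ψ : ℕ → ℝ → ℝ} {f : ℝ → ℝ} {μ : ℕ → ℝ} {δ C t₀ : ℝ}
    (hint : ∀ K a b, IntervalIntegrable (Ψ K) volume a b) (hC : 0 ≤ C)
    (hh : ∀ K t, t₀ ≤ t → |Ψ (K + 1) t - (∑ i ∈ range d, Ψ K (t + ξ i)) / d| ≤ C / t ^ 2)
    (hf : ∀ Y : ℝ, ∃ K₀ : ℕ, ∀ K, K₀ ≤ K → ∀ t, t ≤ Y → Ψ K t = f t)
    (hv : ∀ K, ∃ T₀ : ℝ, ∀ t, T₀ ≤ t → Ψ K t = 0)
    (hl : Tendsto f atTop (𝓝 δ))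
    (hm : ∀ τ : ℝ, ∃ K₀ : ℕ, ∀ K, K₀ ≤ K → ∃ T₁ : ℝ, ∀ T, T₁ ≤ T →
      (∫ t in τ..T, Ψ (K + 1) t) - ∫ t in τ..T, Ψ K t = μ K) :
    Tendsto μ atTop (𝓝 (-(∑ i ∈ range d, ξ i) / d * δ)) := by
  have hdR : (0 : ℝ) < d := by exact_mod_cast hd
  have hd1 : (1 : ℝ) ≤ d := by exact_mod_cast hd
  set c : ℝ := ∑ i ∈ range d, |ξ i| with hc
  have hc0 : 0 ≤ c := sum_nonneg fun i _ => abs_nonneg _
  have hci : ∀ i ∈ range d, |ξ i| ≤ c := fun i hi =>
    single_le_sum (f := fun i => |ξ i|) (fun j _ => abs_nonneg _) hi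
  rw [Metric.tendsto_atTop]
  intro ε hε
  obtain ⟨T₂, hT₂⟩ := (Metric.tendsto_atTop.1 hl) (ε / (4 * (c + 1))) (by positivity)
  set τ : ℝ := max (max t₀ 1) (max (T₂ + c) (4 * C / ε)) with hτ
  have hτ0 : t₀ ≤ τ := (le_max_left _ _).trans (le_max_left _ _)
  have hτ1 : 1 ≤ τ := (le_max_right _ _).trans (le_max_left _ _)
  have hτ2 : T₂ + c ≤ τ := (le_max_left _ _).trans (le_max_right _ _)
  have hτ3 : 4 * C / ε ≤ τ := (le_max_right _ _).trans (le_max_right _ _)
  have hτpos : 0 < τ := by linarith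
  have hCτ : C / τ ≤ ε / 4 := by
    rw [div_le_iff₀ hε] at hτ3
    rw [div_le_div_iff₀ hτpos (by norm_num)]
    linarith
  obtain ⟨K₁, hK₁⟩ := hf (τ + c)
  obtain ⟨K₂, hK₂⟩ := hm τ
  refine ⟨max K₁ K₂, fun K hK => ?_⟩
  have hKf := hK₁ K ((le_max_left _ _).trans hK)
  obtain ⟨T₁, hT₁⟩ := hK₂ K ((le_max_right _ _).trans hK)
  obtain ⟨T₀, hT₀⟩ := hv K
  set T : ℝ := max (max T₁ (T₀ + c)) τ with hT
  have hTa : T₁ ≤ T := (le_max_left _ _).trans (le_max_left _ _)
  have hTb : T₀ + c ≤ T := (le_max_right _ _).trans (le_max_left _ _)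
  have hTc : τ ≤ T := le_max_right _ _
  have hmK := hT₁ T hTa
  -- the shifted integrals
  have hshift : ∀ i ∈ range d, ∫ t in τ..T, Ψ K (t + ξ i) =
      (∫ t in (τ + ξ i)..τ, Ψ K t) + ∫ t in τ..T, Ψ K t := by
    intro i hi
    have hx := abs_le.1 (hci i hi)
    rw [intervalIntegral.integral_comp_add_right (fun t => Ψ K t) (ξ i)]
    have h1 : ∫ t in T..(T + ξ i), Ψ K t = 0 := by
      have h2 : ∫ t in T..(T + ξ i), Ψ K t = ∫ t in T..(T + ξ i), (0 : ℝ) := by
        apply intervalIntegral.integral_congr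
        intro t ht
        apply hT₀
        have h3 := ht.1
        rcases le_total T (T + ξ i) with h4 | h4
        · rw [min_eq_left h4] at h3; linarith
        · rw [min_eq_right h4] at h3; linarith [hx.1]
      rw [h2]; simp
    rw [← intervalIntegral.integral_add_adjacent_intervals (hint K (τ + ξ i) τ) (hint K τ (T + ξ i)),
      ← intervalIntegral.integral_add_adjacent_intervals (hint K τ T) (hint K T (T + ξ i)), h1, add_zero]
  have hintS : ∀ i ∈ range d, IntervalIntegrable (fun t => Ψ K (t + ξ i)) volume τ T := by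
    intro i _
    have := (hint K (τ + ξ i) (T + ξ i)).comp_add_right (ξ i)
    simpa using this
  have hsumint : ∫ t in τ..T, (∑ i ∈ range d, Ψ K (t + ξ i)) / d =
      (∑ i ∈ range d, ∫ t in (τ + ξ i)..τ, Ψ K t) / d + ∫ t in τ..T, Ψ K t := by
    rw [intervalIntegral.integral_div, intervalIntegral.integral_finsetSum hintS,
      sum_congr rfl hshift, sum_add_distrib]
    simp only [sum_const, card_range, nsmul_eq_mul]
    field_simp
  have hintSum : IntervalIntegrable (fun t => (∑ i ∈ range d, Ψ K (t + ξ i)) / d) volume τ T := by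
    have h1 : IntervalIntegrable (fun t => ∑ i ∈ range d, Ψ K (t + ξ i)) volume τ T := by
      have e : (fun t => ∑ i ∈ range d, Ψ K (t + ξ i)) = ∑ i ∈ range d, fun t => Ψ K (t + ξ i) := by
        funext t
        rw [Finset.sum_apply]
      rw [e]
      exact IntervalIntegrable.sum (range d) hintS
    exact h1.div_const _
  have herr : |(∫ t in τ..T, Ψ (K + 1) t) - ∫ t in τ..T, (∑ i ∈ range d, Ψ K (t + ξ i)) / d| ≤ C / τ := by
    rw [← intervalIntegral.integral_sub (hint _ _ _) hintSum, ← Real.norm_eq_abs]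
    have hi : IntervalIntegrable (fun t : ℝ => C / t ^ 2) volume τ T := by
      apply ContinuousOn.intervalIntegrable
      intro t ht
      rw [Set.uIcc_of_le hTc] at ht
      have ht0 : t ≠ 0 := by linarith [ht.1]
      exact (continuousAt_const.div (continuousAt_id.pow 2) (pow_ne_zero 2 ht0)).continuousWithinAt
    refine (intervalIntegral.norm_integral_le_of_norm_le hTc (Filter.Eventually.of_forall ?_) hi).trans ?_
    · intro t ht
      rw [Real.norm_eq_abs]
      exact hh K t (by linarith [ht.1])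
    · rw [integral_sq_inv hτpos hTc]
      have : 0 ≤ C / T := by
        apply div_nonneg hC; linarith
      linarith
  -- the main term
  have hmain : ∀ i ∈ range d, |(∫ t in (τ + ξ i)..τ, Ψ K t) - -ξ i * δ| ≤ ε / (4 * (c + 1)) * |ξ i| := by
    intro i hi
    have hx := abs_le.1 (hci i hi)
    have h1 : (∫ t in (τ + ξ i)..τ, (Ψ K t - δ)) = (∫ t in (τ + ξ i)..τ, Ψ K t) - -ξ i * δ := by
      rw [intervalIntegral.integral_sub (hint _ _ _) intervalIntegrable_const, intervalIntegral.integral_const]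
      simp
    rw [← h1, ← Real.norm_eq_abs]
    have h2 : |τ - (τ + ξ i)| = |ξ i| := by
      rw [show τ - (τ + ξ i) = -ξ i by ring, abs_neg]
    rw [← h2]
    apply intervalIntegral.norm_integral_le_of_norm_le_const
    intro t ht
    have ht1 : τ - c ≤ t ∧ t ≤ τ + c := by
      rcases le_total (τ + ξ i) τ with h4 | h4
      · rw [Set.uIoc_of_le h4] at ht
        constructor <;> linarith [ht.1, ht.2, hx.1, hx.2]
      · rw [Set.uIoc_comm, Set.uIoc_of_le h4] at ht
        constructor <;> linarith [ht.1, ht.2, hx.1, hx.2]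
    rw [hKf t ht1.2, Real.norm_eq_abs, ← Real.dist_eq]
    exact (hT₂ t (by linarith [ht1.1])).le
  have hsum : |(∑ i ∈ range d, ∫ t in (τ + ξ i)..τ, Ψ K t) / d - -(∑ i ∈ range d, ξ i) / d * δ| ≤ ε / 4 := by
    have e1 : (∑ i ∈ range d, ∫ t in (τ + ξ i)..τ, Ψ K t) / d - -(∑ i ∈ range d, ξ i) / d * δ =
        (∑ i ∈ range d, ((∫ t in (τ + ξ i)..τ, Ψ K t) - -ξ i * δ)) / d := by
      rw [sum_sub_distrib, ← sum_mul, sum_neg_distrib]
      ring
    rw [e1, abs_div, abs_of_pos hdR]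
    refine (div_le_self (abs_nonneg _) hd1).trans ?_
    refine (abs_sum_le_sum_abs _ _).trans ((sum_le_sum hmain).trans ?_)
    rw [← mul_sum, ← hc]
    rw [div_mul_eq_mul_div, div_le_div_iff₀ (by positivity) (by norm_num)]
    nlinarith
  have hdec : μ K - -(∑ i ∈ range d, ξ i) / d * δ =
      ((∫ t in τ..T, Ψ (K + 1) t) - ∫ t in τ..T, (∑ i ∈ range d, Ψ K (t + ξ i)) / d) +
      ((∑ i ∈ range d, ∫ t in (τ + ξ i)..τ, Ψ K t) / d - -(∑ i ∈ range d, ξ i) / d * δ) := by
    rw [← hmK, hsumint]; ring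
  rw [Real.dist_eq, hdec]
  refine lt_of_le_of_lt (abs_add_le _ _) ?_
  linarith

end Pool.Agent.R623.LM
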