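import Pool.Agent.H319R3.DN.T12

/-! Level masses of generalised Collatz maps, part 5: integrals of window densities. -/

set_option autoImplicit false

namespace Pool.Agent.R623.LM
open Pool.Agent.H319R3.DN Finset Filter Topology MeasureTheory

theorem Fw_int (S : Set ℤ) {σ : ℤ} (hσ : σ = 1 ∨ σ = -1) (a b : ℝ) :
    IntervalIntegrable (Fw S σ) volume a b := by
  have e : Fw S σ = fun t => (G S σ (2 * Real.exp t) - G S σ (Real.exp t)) * Real.exp (-t) := by
    funext t
    rw [Fw_eq S hσ t, Real.exp_neg, div_eq_mul_inv]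
  have hm := T12.G_mono S hσ
  have h1 : Monotone (fun t : ℝ => G S σ (2 * Real.exp t)) := fun s t hst =>
    hm (by have := Real.exp_le_exp.2 hst; linarith)
  have h2 : Monotone (fun t : ℝ => G S σ (Real.exp t)) := fun s t hst => hm (Real.exp_le_exp.2 hst)
  rw [e]
  exact (h1.intervalIntegrable.sub h2.intervalIntegrable).mul_continuousOn
    (Real.continuous_exp.comp continuous_neg).continuousOn

/-- the contribution of one integer of absolute value `y` -/
noncomputable def gg (y t : ℝ) : ℝ :=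
  (Set.Ioc (Real.log y - Real.log 2) (Real.log y)).indicator (fun t => Real.exp (-t)) t

theorem gg_eq {y : ℝ} (hy : 0 < y) (t : ℝ) :
    gg y t = if Real.exp t ≤ y ∧ y < 2 * Real.exp t then 1 / Real.exp t else 0 := by
  have h1 : t ≤ Real.log y ↔ Real.exp t ≤ y := Real.le_log_iff_exp_le hy
  have h2 : Real.log y - Real.log 2 < t ↔ y < 2 * Real.exp t := by
    have e : 2 * Real.exp t = Real.exp (Real.log 2 + t) := by
      rw [Real.exp_add, Real.exp_log (by norm_num)]
    rw [e, ← Real.log_lt_iff_lt_exp hy]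
    constructor <;> intro h <;> linarith
  unfold gg
  rw [Set.indicator_apply]
  by_cases h : Real.exp t ≤ y ∧ y < 2 * Real.exp t
  · rw [if_pos h, if_pos ⟨h2.2 h.2, h1.2 h.1⟩, Real.exp_neg, one_div]
  · rw [if_neg h, if_neg]
    rintro ⟨h3, h4⟩
    exact h ⟨h1.1 h4, h2.1 h3⟩

theorem gg_int (y a b : ℝ) : IntervalIntegrable (gg y) volume a b := by
  have h : IntervalIntegrable (fun t : ℝ => Real.exp (-t)) volume a b :=
    (Real.continuous_exp.comp continuous_neg).intervalIntegrable a b
  exact ⟨h.1.indicator measurableSet_Ioc, h.2.indicator measurableSet_Ioc⟩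

theorem int_gg {y τ T : ℝ} (h1 : 2 * Real.exp τ ≤ y) (h2 : y ≤ Real.exp T) :
    ∫ t in τ..T, gg y t = 1 / y := by
  have hy : 0 < y := by have := Real.exp_pos τ; linarith
  have a1 : τ ≤ Real.log y - Real.log 2 := by
    have e : 2 * Real.exp τ = Real.exp (Real.log 2 + τ) := by
      rw [Real.exp_add, Real.exp_log (by norm_num)]
    rw [e, ← Real.le_log_iff_exp_le hy] at h1
    linarith
  have a2 : Real.log y ≤ T := (Real.log_le_iff_le_exp hy).2 h2
  have a3 : Real.log y - Real.log 2 ≤ Real.log y := by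
    have := Real.log_pos (by norm_num : (1 : ℝ) < 2)
    linarith
  have hcap : Set.Ioc τ T ∩ Set.Ioc (Real.log y - Real.log 2) (Real.log y) =
      Set.Ioc (Real.log y - Real.log 2) (Real.log y) := by
    apply Set.inter_eq_self_of_subset_right
    exact Set.Ioc_subset_Ioc a1 a2
  rw [intervalIntegral.integral_of_le (by linarith)]
  unfold gg
  rw [setIntegral_indicator measurableSet_Ioc, hcap, ← intervalIntegral.integral_of_le a3]
  have h3 : ∫ t in (Real.log y - Real.log 2)..(Real.log y), Real.exp (-t) =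
      Real.exp (-(Real.log y - Real.log 2)) - Real.exp (-Real.log y) := by
    rw [intervalIntegral.integral_comp_neg (fun t => Real.exp t), integral_exp]
  rw [h3]
  have e1 : Real.exp (-(Real.log y - Real.log 2)) = 2 / y := by
    rw [show -(Real.log y - Real.log 2) = Real.log 2 - Real.log y by ring, Real.exp_sub,
      Real.exp_log (by norm_num), Real.exp_log hy]
  have e2 : Real.exp (-Real.log y) = 1 / y := by
    rw [Real.exp_neg, Real.exp_log hy, one_div]
  rw [e1, e2]
  ring

/-- the window density of a finite set -/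
theorem Fw_fin {S : Set ℤ} {U : Finset ℤ} {σ : ℤ} (hσ : σ = 1 ∨ σ = -1)
    (hU : ∀ x : ℤ, x ∈ U ↔ x ∈ S ∧ 0 < σ * x) (t : ℝ) :
    Fw S σ t = ∑ x ∈ U, gg |(x : ℝ)| t := by
  classical
  have he := Real.exp_pos t
  have habs : ∀ x : ℤ, 0 < σ * x → |(x : ℝ)| = ((σ * x : ℤ) : ℝ) := by
    intro x hx
    rcases hσ with h | h
    · rw [h, one_mul] at hx ⊢
      exact abs_of_pos (by exact_mod_cast hx)
    · rw [h] at hx ⊢
      have : (x : ℝ) < 0 := by
        have h2 : x < 0 := by omega
        exact_mod_cast h2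
      rw [abs_of_neg this]
      push_cast; ring
  have hset : {x : ℤ | x ∈ S ∧ Real.exp t ≤ ((σ * x : ℤ) : ℝ) ∧ ((σ * x : ℤ) : ℝ) < 2 * Real.exp t ∧
      ((1 : ℕ) : ℤ) ∣ x - 0} =
      (U.filter fun x => Real.exp t ≤ |(x : ℝ)| ∧ |(x : ℝ)| < 2 * Real.exp t : Finset ℤ) := by
    ext x
    rw [Finset.mem_coe, Finset.mem_filter, hU]
    constructor
    · rintro ⟨h1, h2, h3, -⟩
      have h4 : 0 < σ * x := by
        have : (0 : ℝ) < ((σ * x : ℤ) : ℝ) := by linarith
        exact_mod_cast this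
      rw [habs x h4]
      exact ⟨⟨h1, h4⟩, h2, h3⟩
    · rintro ⟨⟨h1, h4⟩, h2, h3⟩
      rw [habs x h4] at h2 h3
      exact ⟨h1, h2, h3, by simp⟩
  unfold Fw nw
  rw [hset, Set.ncard_coe_finset, Finset.card_filter, Nat.cast_sum, Finset.sum_div]
  refine Finset.sum_congr rfl fun x hx => ?_
  have hx0 : 0 < |(x : ℝ)| := by
    rw [habs x ((hU x).1 hx).2]
    exact_mod_cast ((hU x).1 hx).2
  rw [gg_eq hx0]
  by_cases h : Real.exp t ≤ |(x : ℝ)| ∧ |(x : ℝ)| < 2 * Real.exp t
  · rw [if_pos h, if_pos h]; norm_num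
  · rw [if_neg h, if_neg h]; norm_num

end Pool.Agent.R623.LM
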