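import Pool.Agent.R623.LM.C
import Pool.Agent.R623.LM.D
import Pool.Agent.R623.LM.E
import Pool.Agent.H319R3.DN.T13

/-! Level masses of generalised Collatz maps, part 6: the levels over a finite set and their sums of
reciprocals. -/

set_option autoImplicit false

namespace Pool.Agent.R623.LM
open Pool.Agent.H319R3.GC Pool.Agent.H319R3.DN Finset Filter Topology MeasureTheory

variable {d : ℕ} {m r : ℕ → ℤ}

/-- the integers which are in `F` after `k` steps -/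
def UU (d : ℕ) (m r : ℕ → ℤ) (F : Set ℤ) (k : ℕ) : Set ℤ := {x | (Tm d m r)^[k] x ∈ F}

/-- the basin of `F` -/
def Bas (d : ℕ) (m r : ℕ → ℤ) (F : Set ℤ) : Set ℤ := {x | ∃ k : ℕ, (Tm d m r)^[k] x ∈ F}

/-- the level number `k`: the integers which enter `F` at the time `k` -/
def Lev (d : ℕ) (m r : ℕ → ℤ) (F : Set ℤ) (k : ℕ) : Set ℤ :=
  {x | (Tm d m r)^[k] x ∈ F ∧ ∀ j < k, (Tm d m r)^[j] x ∉ F}

theorem stay {F : Set ℤ} (hT : ∀ x ∈ F, Tm d m r x ∈ F) (j : ℕ) : ∀ y ∈ F, (Tm d m r)^[j] y ∈ F := by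
  induction j with
  | zero => intro y hy; exact hy
  | succ j ih => intro y hy; rw [Function.iterate_succ_apply]; exact ih _ (hT y hy)

theorem UU_mono {F : Set ℤ} (hT : ∀ x ∈ F, Tm d m r x ∈ F) {k l : ℕ} (hkl : k ≤ l) {x : ℤ}
    (hx : x ∈ UU d m r F k) : x ∈ UU d m r F l := by
  obtain ⟨j, rfl⟩ := Nat.exists_eq_add_of_le hkl
  show (Tm d m r)^[k + j] x ∈ F
  rw [Nat.add_comm, Function.iterate_add_apply]
  exact stay hT j _ hx

theorem UU_succ {F : Set ℤ} (k : ℕ) (x : ℤ) : x ∈ UU d m r F (k + 1) ↔ Tm d m r x ∈ UU d m r F k := by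
  show (Tm d m r)^[k + 1] x ∈ F ↔ _
  rw [Function.iterate_succ_apply]; rfl

theorem Bas_inv {F : Set ℤ} (hT : ∀ x ∈ F, Tm d m r x ∈ F) : Inv d m r (Bas d m r F) := by
  intro x
  constructor
  · rintro ⟨k, hk⟩
    refine ⟨k, ?_⟩
    rw [← Function.iterate_succ_apply (Tm d m r) k x, Function.iterate_succ_apply']
    exact hT _ hk
  · rintro ⟨k, hk⟩
    exact ⟨k + 1, by rwa [Function.iterate_succ_apply]⟩

theorem Syn_UU {F : Set ℤ} (hT : ∀ x ∈ F, Tm d m r x ∈ F) {R : ℝ} (hR : ∀ x ∈ F, |(x : ℝ)| ≤ R) (K : ℕ) :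
    Syn d m r R (UU d m r F K) := by
  intro k
  rcases le_or_gt k K with hk | hk
  · obtain ⟨j, rfl⟩ := Nat.exists_eq_add_of_le hk
    refine ⟨UU d m r F j, fun x _ => ?_⟩
    show (Tm d m r)^[k + j] x ∈ F ↔ (Tm d m r)^[j] ((Tm d m r)^[k] x) ∈ F
    rw [Nat.add_comm, Function.iterate_add_apply]
  · refine ⟨∅, fun x hx => ?_⟩
    constructor
    · intro h1
      have h2 : (Tm d m r)^[k] x ∈ F := UU_mono hT hk.le h1
      exact absurd (hR _ h2) (not_le.2 hx)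
    · intro h1
      exact absurd h1 (Set.notMem_empty _)

theorem one_step (h : Adm d m r) : ∃ ρ : ℝ, 0 ≤ ρ ∧ ∀ x : ℤ, |(x : ℝ)| ≤ d * |((Tm d m r x : ℤ) : ℝ)| + ρ := by
  have hd2 := h.two_le
  refine ⟨∑ i ∈ range d, |(r i : ℝ)|, sum_nonneg fun i _ => abs_nonneg _, fun x => ?_⟩
  have h1 := iter_eq h 1 x
  simp only [wd, Mw, Ww, List.map_cons, List.map_nil, List.prod_cons, List.prod_nil, mul_one, mul_zero,
    add_zero, pow_one, Function.iterate_one] at h1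
  have hi : (x % (d : ℤ)).toNat < d := by
    have h2 : 0 ≤ x % (d : ℤ) := Int.emod_nonneg _ (by omega)
    have h3 : x % (d : ℤ) < d := Int.emod_lt_of_pos _ (by omega)
    omega
  set i := (x % (d : ℤ)).toNat with hidef
  have hm0 := t7_ne h hi
  have hm1 : (1 : ℝ) ≤ |(m i : ℝ)| := by
    rw [← Int.cast_abs]
    exact_mod_cast Int.one_le_abs hm0
  have h2 : (m i : ℝ) * x = d * ((Tm d m r x : ℤ) : ℝ) + r i := by
    have : m i * x = d * Tm d m r x + r i := by linarith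
    exact_mod_cast this
  have h3 : |(m i : ℝ)| * |(x : ℝ)| ≤ d * |((Tm d m r x : ℤ) : ℝ)| + |(r i : ℝ)| := by
    rw [← abs_mul, h2]
    refine (abs_add_le _ _).trans ?_
    rw [abs_mul, Nat.abs_cast]
  have h4 : |(r i : ℝ)| ≤ ∑ i ∈ range d, |(r i : ℝ)| :=
    single_le_sum (f := fun i => |(r i : ℝ)|) (fun j _ => abs_nonneg _) (mem_range.2 hi)
  have h5 : |(x : ℝ)| ≤ |(m i : ℝ)| * |(x : ℝ)| := le_mul_of_one_le_left (abs_nonneg _) hm1
  linarith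

theorem bounded (h : Adm d m r) {F : Set ℤ} {R : ℝ} (hR : ∀ x ∈ F, |(x : ℝ)| ≤ R) (K : ℕ) :
    ∃ B : ℝ, ∀ x ∈ UU d m r F K, |(x : ℝ)| ≤ B := by
  obtain ⟨ρ, hρ, hs⟩ := one_step h
  induction K with
  | zero => exact ⟨R, fun x hx => hR x hx⟩
  | succ K ih =>
    obtain ⟨B, hB⟩ := ih
    refine ⟨d * B + ρ, fun x hx => ?_⟩
    have h1 := hB _ ((UU_succ K x).1 hx)
    have h2 := hs x
    have h3 : (d : ℝ) * |((Tm d m r x : ℤ) : ℝ)| ≤ d * B := mul_le_mul_of_nonneg_left h1 (Nat.cast_nonneg _)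
    linarith

theorem fin_of_bdd {S : Set ℤ} {B : ℝ} (hB : ∀ x ∈ S, |(x : ℝ)| ≤ B) : S.Finite := by
  apply (Finset.finite_toSet (Finset.Icc (-⌊B⌋) ⌊B⌋)).subset
  intro x hx
  have h1 := abs_le.1 (hB x hx)
  rw [Finset.coe_Icc, Set.mem_Icc]
  constructor
  · have : ((-x : ℤ) : ℝ) ≤ B := by push_cast; linarith [h1.1]
    have := Int.le_floor.2 this
    omega
  · exact Int.le_floor.2 h1.2

/-- all members of the basin of bounded size are in `F` after a bounded time -/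
theorem eventually_UU {F : Set ℤ} (hT : ∀ x ∈ F, Tm d m r x ∈ F) (Y : ℝ) :
    ∃ K₀ : ℕ, ∀ K, K₀ ≤ K → ∀ x : ℤ, |(x : ℝ)| ≤ Y → (x ∈ Bas d m r F ↔ x ∈ UU d m r F K) := by
  classical
  have hk : ∀ x : ℤ, ∃ k : ℕ, x ∈ Bas d m r F → x ∈ UU d m r F k := by
    intro x
    by_cases hx : x ∈ Bas d m r F
    · obtain ⟨k, hk⟩ := hx
      exact ⟨k, fun _ => hk⟩
    · exact ⟨0, fun h => absurd h hx⟩
  choose κ hκ using hk
  have hfin : {x : ℤ | |(x : ℝ)| ≤ Y}.Finite := fin_of_bdd (B := Y) fun x hx => hx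
  refine ⟨hfin.toFinset.sup κ, fun K hK x hx => ⟨fun hb => ?_, fun hu => ⟨K, hu⟩⟩⟩
  refine UU_mono hT ?_ (hκ x hb)
  exact (Finset.le_sup (f := κ) (hfin.mem_toFinset.2 hx)).trans hK

theorem abs_eq {σ : ℤ} (hσ : σ = 1 ∨ σ = -1) (x : ℤ) : |(x : ℝ)| = |((σ * x : ℤ) : ℝ)| := by
  rcases hσ with h | h <;> rw [h]
  · rw [one_mul]
  · push_cast; rw [neg_one_mul, abs_neg]

/-- **The law of the levels.** -/
theorem level_law (h : Adm d m r) {F : Set ℤ} (hF : F.Finite) (hT : ∀ x ∈ F, Tm d m r x ∈ F)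
    {Sg : Finset ℤ} (hSg : ∀ σ ∈ Sg, σ = 1 ∨ σ = -1)
    (hperm : ∀ i < d, ∀ φ : ℤ → ℝ, ∑ σ ∈ Sg, φ (σ * (m i).sign) = ∑ σ ∈ Sg, φ σ) {l : ℤ → ℝ}
    (hl : ∀ σ ∈ Sg, Tendsto (Fw (Bas d m r F) σ) atTop (𝓝 (l σ))) :
    Tendsto (fun k : ℕ => ∑ σ ∈ Sg, ∑' x : {x : ℤ | x ∈ Lev d m r F (k + 1) ∧ 0 < σ * x},
      1 / |((x : ℤ) : ℝ)|) atTop
      (𝓝 (-(∑ i ∈ range d, Real.log (|(m i : ℝ)| / d)) / d * ∑ σ ∈ Sg, l σ)) := by
  classical
  have hd2 := h.two_le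
  obtain ⟨R, hR⟩ : ∃ R : ℝ, 0 ≤ R ∧ ∀ x ∈ F, |(x : ℝ)| ≤ R := by
    refine ⟨∑ x ∈ hF.toFinset, |(x : ℝ)|, sum_nonneg fun x _ => abs_nonneg _, fun x hx => ?_⟩
    exact single_le_sum (f := fun x : ℤ => |(x : ℝ)|) (fun y _ => abs_nonneg _) (hF.mem_toFinset.2 hx)
  obtain ⟨hR0, hR⟩ := hR
  obtain ⟨C, t₀, hC, ht₀, hH⟩ := harm h hR0
  have hfin : ∀ K, (UU d m r F K).Finite := fun K => fin_of_bdd (bounded h hR K).choose_spec
  set V : ℕ → ℤ → Finset ℤ := fun K σ => (hfin K).toFinset.filter fun x => 0 < σ * x with hV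
  have hVm : ∀ K σ x, x ∈ V K σ ↔ x ∈ UU d m r F K ∧ 0 < σ * x := by
    intro K σ x
    rw [hV]; simp
  have hVsub : ∀ K σ, V K σ ⊆ V (K + 1) σ := by
    intro K σ x hx
    rw [hVm] at hx ⊢
    exact ⟨UU_mono hT (Nat.le_succ K) hx.1, hx.2⟩
  have hLev : ∀ K σ, {x : ℤ | x ∈ Lev d m r F (K + 1) ∧ 0 < σ * x} = (V (K + 1) σ \ V K σ : Finset ℤ) := by
    intro K σ
    ext x
    rw [Finset.mem_coe, Finset.mem_sdiff, hVm, hVm]
    constructor
    · rintro ⟨⟨h1, h2⟩, h3⟩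
      exact ⟨⟨h1, h3⟩, fun h4 => h2 K (Nat.lt_succ_self K) h4.1⟩
    · rintro ⟨⟨h1, h3⟩, h4⟩
      refine ⟨⟨h1, fun j hj hjF => h4 ⟨UU_mono hT (Nat.lt_succ_iff.1 hj) hjF, h3⟩⟩, h3⟩
  have hmass : ∀ K : ℕ, (∑ σ ∈ Sg, ∑' x : {x : ℤ | x ∈ Lev d m r F (K + 1) ∧ 0 < σ * x},
      1 / |((x : ℤ) : ℝ)|) = ∑ σ ∈ Sg, ∑ x ∈ V (K + 1) σ \ V K σ, 1 / |(x : ℝ)| := by
    intro K
    refine sum_congr rfl fun σ _ => ?_
    rw [hLev K σ]
    exact Finset.tsum_subtype' (V (K + 1) σ \ V K σ) (fun x : ℤ => 1 / |(x : ℝ)|)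
  simp only [hmass]
  set Ψ : ℕ → ℝ → ℝ := fun K t => ∑ σ ∈ Sg, Fw (UU d m r F K) σ t with hΨ
  set f : ℝ → ℝ := fun t => ∑ σ ∈ Sg, Fw (Bas d m r F) σ t with hf
  have hint : ∀ K a b, IntervalIntegrable (Ψ K) volume a b := by
    intro K a b
    have e : Ψ K = ∑ σ ∈ Sg, Fw (UU d m r F K) σ := by
      funext t
      rw [Finset.sum_apply]
    rw [e]
    exact IntervalIntegrable.sum Sg fun σ hσ => Fw_int _ (hSg σ hσ) a b
  refine flux (d := d) (by omega) (ξ := fun i => Real.log (|(m i : ℝ)| / d)) (Ψ := Ψ) (f := f)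
    (C := Sg.card * C) (t₀ := t₀) hint (by positivity) ?_ ?_ ?_ ?_ ?_
  · -- the harmonic relation
    intro K t ht
    have e1 : (∑ i ∈ range d, Ψ K (t + Real.log (|(m i : ℝ)| / d))) / d =
        ∑ σ ∈ Sg, (∑ i ∈ range d, Fw (UU d m r F K) (σ * (m i).sign) (t + Real.log (|(m i : ℝ)| / d))) / d := by
      have e0 : ∑ i ∈ range d, Ψ K (t + Real.log (|(m i : ℝ)| / d)) = ∑ i ∈ range d, ∑ σ ∈ Sg,
          Fw (UU d m r F K) (σ * (m i).sign) (t + Real.log (|(m i : ℝ)| / d)) :=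
        sum_congr rfl fun i hi => (hperm i (mem_range.1 hi)
          fun σ => Fw (UU d m r F K) σ (t + Real.log (|(m i : ℝ)| / d))).symm
      rw [e0, Finset.sum_comm, Finset.sum_div]
    have e2 : Ψ (K + 1) t = ∑ σ ∈ Sg, Fw (UU d m r F (K + 1)) σ t := rfl
    rw [e1, e2, ← Finset.sum_sub_distrib]
    refine (abs_sum_le_sum_abs _ _).trans ?_
    have h1 : ∀ σ ∈ Sg, |Fw (UU d m r F (K + 1)) σ t -
        (∑ i ∈ range d, Fw (UU d m r F K) (σ * (m i).sign) (t + Real.log (|(m i : ℝ)| / d))) / d| ≤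
        C / t ^ 2 := fun σ hσ =>
      hH (UU d m r F (K + 1)) (UU d m r F K) (fun x _ => UU_succ K x) (Syn_UU hT hR K) σ (hSg σ hσ) t ht
    refine (sum_le_sum h1).trans ?_
    rw [sum_const, nsmul_eq_mul, mul_div_assoc]
  · -- the basin
    intro Y
    obtain ⟨K₀, hK₀⟩ := eventually_UU (d := d) (m := m) (r := r) hT (2 * Real.exp Y)
    refine ⟨K₀, fun K hK t ht => ?_⟩
    refine sum_congr rfl fun σ hσ => ?_
    unfold Fw nw
    congr 3
    ext x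
    have key : Real.exp t ≤ ((σ * x : ℤ) : ℝ) → ((σ * x : ℤ) : ℝ) < 2 * Real.exp t →
        (x ∈ Bas d m r F ↔ x ∈ UU d m r F K) := by
      intro h1 h2
      apply hK₀ K hK
      rw [abs_eq (hSg σ hσ) x, abs_of_nonneg ((Real.exp_pos t).le.trans h1)]
      have := Real.exp_le_exp.2 ht
      linarith
    constructor
    · rintro ⟨h1, h2, h3, h4⟩
      exact ⟨(key h2 h3).2 h1, h2, h3, h4⟩
    · rintro ⟨h1, h2, h3, h4⟩
      exact ⟨(key h2 h3).1 h1, h2, h3, h4⟩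
  · -- vanishing
    intro K
    obtain ⟨B, hB⟩ := bounded h hR K
    refine ⟨B, fun t ht => ?_⟩
    apply sum_eq_zero
    intro σ hσ
    unfold Fw nw
    have : {x : ℤ | x ∈ UU d m r F K ∧ Real.exp t ≤ ((σ * x : ℤ) : ℝ) ∧
        ((σ * x : ℤ) : ℝ) < 2 * Real.exp t ∧ ((1 : ℕ) : ℤ) ∣ x - 0} = ∅ := by
      ext x
      simp only [Set.mem_ofPred_eq, Set.mem_empty_iff_false, iff_false]
      rintro ⟨h1, h2, -, -⟩
      have h3 := hB x h1
      rw [abs_eq (hSg σ hσ) x] at h3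
      have h4 := le_abs_self (((σ * x : ℤ) : ℝ))
      have h5 := Real.add_one_le_exp t
      linarith
    rw [this]; simp
  · -- the density of the basin
    exact tendsto_finsetSum Sg hl
  · -- the masses
    intro τ
    obtain ⟨K₀, hK₀⟩ := eventually_UU (d := d) (m := m) (r := r) hT (2 * Real.exp τ)
    refine ⟨K₀, fun K hK => ?_⟩
    obtain ⟨B, hB⟩ := bounded h hR (K + 1)
    refine ⟨B, fun T hTB => ?_⟩
    rw [← intervalIntegral.integral_sub (hint _ _ _) (hint _ _ _)]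
    have e1 : ∀ t, Ψ (K + 1) t - Ψ K t = ∑ σ ∈ Sg, ∑ x ∈ V (K + 1) σ \ V K σ, gg |(x : ℝ)| t := by
      intro t
      rw [hΨ]
      simp only
      rw [← Finset.sum_sub_distrib]
      refine sum_congr rfl fun σ hσ => ?_
      rw [Fw_fin (hSg σ hσ) (hVm (K + 1) σ) t, Fw_fin (hSg σ hσ) (hVm K σ) t,
        ← Finset.sum_sdiff (hVsub K σ)]
      ring
    have e2 : (fun t => Ψ (K + 1) t - Ψ K t) = fun t => ∑ σ ∈ Sg, ∑ x ∈ V (K + 1) σ \ V K σ, gg |(x : ℝ)| t :=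
      funext e1
    rw [e2, intervalIntegral.integral_finsetSum]
    · refine sum_congr rfl fun σ hσ => ?_
      rw [intervalIntegral.integral_finsetSum fun x _ => gg_int _ _ _]
      refine sum_congr rfl fun x hx => ?_
      rw [Finset.mem_sdiff, hVm, hVm] at hx
      apply int_gg
      · by_contra hcon
        apply hx.2
        refine ⟨(hK₀ K hK x (not_le.1 hcon).le).1 ⟨K + 1, hx.1.1⟩, hx.1.2⟩
      · have h1 := hB x hx.1.1
        have h2 := Real.add_one_le_exp T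
        linarith
    · intro σ hσ
      have e : (fun t => ∑ x ∈ V (K + 1) σ \ V K σ, gg |(x : ℝ)| t) =
          ∑ x ∈ V (K + 1) σ \ V K σ, gg |(x : ℝ)| := by
        funext t
        rw [Finset.sum_apply]
      rw [e]
      exact IntervalIntegrable.sum _ fun x _ => gg_int _ _ _

end Pool.Agent.R623.LM
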