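import Pool.Agent.R623.LM.F
import Pool.Agent.H319R3.DN.T14

/-! Level masses of generalised Collatz maps, part 7: natural densities, both sides, cycling
trajectories. -/

set_option autoImplicit false

namespace Pool.Agent.R623.LM
open Pool.Agent.H319R3.GC Pool.Agent.H319R3.DN Finset Filter Topology MeasureTheory

variable {d : ℕ} {m r : ℕ → ℤ}

theorem Fw_of_dens {S : Set ℤ} {σ : ℤ} (hσ : σ = 1 ∨ σ = -1) {l : ℝ}
    (hl : Tendsto (fun X : ℝ => G S σ X / X) atTop (𝓝 l)) : Tendsto (Fw S σ) atTop (𝓝 l) := by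
  have h1 : Tendsto (fun t : ℝ => 2 * Real.exp t) atTop atTop :=
    Real.tendsto_exp_atTop.const_mul_atTop (by norm_num)
  have h2 := (hl.comp h1).const_mul 2
  have h3 := h2.sub (hl.comp Real.tendsto_exp_atTop)
  have e : 2 * l - l = l := by ring
  rw [e] at h3
  refine h3.congr fun t => ?_
  simp only [Function.comp]
  rw [Fw_eq S hσ t]
  have := Real.exp_pos t
  field_simp

theorem dens_nat {S : Set ℤ} {σ : ℤ} {δ : ℝ}
    (hδ : Tendsto (fun X : ℝ => G S σ X / X) atTop (𝓝 δ)) :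
    Tendsto (fun N : ℕ => (Set.ncard {x : ℤ | x ∈ S ∧ 1 ≤ σ * x ∧ σ * x ≤ N} : ℝ) / N) atTop (𝓝 δ) := by
  have hGN : ∀ N : ℕ, G S σ ((N : ℝ) + 1) =
        (Set.ncard {x : ℤ | x ∈ S ∧ 1 ≤ σ * x ∧ σ * x ≤ N} : ℝ) := by
    intro N
    unfold G
    congr 2
    ext x
    simp only [Set.mem_ofPred_eq]
    constructor
    · rintro ⟨h1, h2, h3⟩
      refine ⟨h1, by omega, ?_⟩
      have h4 : (σ * x : ℤ) < (N : ℤ) + 1 := by exact_mod_cast h3
      omega
    · rintro ⟨h1, h2, h3⟩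
      refine ⟨h1, by omega, ?_⟩
      have h4 : (σ * x : ℤ) < (N : ℤ) + 1 := by omega
      exact_mod_cast h4
  have h1 : Tendsto (fun N : ℕ => ((N : ℝ) + 1)) atTop atTop :=
    tendsto_atTop_add_const_right _ _ tendsto_natCast_atTop_atTop
  have h2 := hδ.comp h1
  have h3 : Tendsto (fun N : ℕ => ((N : ℝ) + 1) / N) atTop (𝓝 1) := by
    have h4 : Tendsto (fun N : ℕ => 1 + 1 / (N : ℝ)) atTop (𝓝 (1 + 0)) :=
      tendsto_const_nhds.add tendsto_one_div_atTop_nhds_zero_nat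
    rw [add_zero] at h4
    refine h4.congr' ?_
    filter_upwards [eventually_gt_atTop 0] with N hN
    have : (0 : ℝ) < N := by exact_mod_cast hN
    field_simp
  have h5 := h2.mul h3
  rw [mul_one] at h5
  refine h5.congr' ?_
  filter_upwards [eventually_gt_atTop 0] with N hN
  have : (0 : ℝ) < N := by exact_mod_cast hN
  simp only [Function.comp]
  rw [hGN N]
  field_simp

theorem Lev_finite (h : Adm d m r) {F : Set ℤ} (hF : F.Finite) (k : ℕ) : (Lev d m r F k).Finite := by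
  have hR : ∀ x ∈ F, |(x : ℝ)| ≤ ∑ x ∈ hF.toFinset, |(x : ℝ)| := fun x hx =>
    single_le_sum (f := fun x : ℤ => |(x : ℝ)|) (fun y _ => abs_nonneg _) (hF.mem_toFinset.2 hx)
  obtain ⟨B, hB⟩ := bounded h hR k
  exact (fin_of_bdd hB).subset fun x hx => hx.1

/-- minus the mean of `log (|m_i| / d)` -/
noncomputable def lam (d : ℕ) (m : ℕ → ℤ) : ℝ := -(∑ i ∈ range d, Real.log (|(m i : ℝ)| / d)) / d

theorem lam_pos (h : Adm d m r) : 0 < lam d m := by
  have h1 := drift h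
  have hd2 := h.two_le
  unfold lam
  apply div_pos
  · linarith
  · have : 0 < d := by omega
    exact_mod_cast this

/-- both sides -/
theorem two (h : Adm d m r) {F : Set ℤ} (hF : F.Finite) (hT : ∀ x ∈ F, Tm d m r x ∈ F) {l : ℤ → ℝ}
    (hl : ∀ σ : ℤ, (σ = 1 ∨ σ = -1) → Tendsto (fun X : ℝ => G (Bas d m r F) σ X / X) atTop (𝓝 (l σ))) :
    Tendsto (fun k : ℕ => ∑' x : {x : ℤ | x ∈ Lev d m r F k}, 1 / |((x : ℤ) : ℝ)|) atTop
      (𝓝 (lam d m * (l 1 + l (-1)))) := by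
  classical
  have h1 := level_law h hF hT (Sg := {1, -1}) (l := l) (by
      intro σ hσ
      rw [Finset.mem_insert, Finset.mem_singleton] at hσ
      exact hσ) (by
      intro i hi φ
      rw [Finset.sum_pair (by norm_num), Finset.sum_pair (by norm_num)]
      rcases lt_or_gt_of_ne (t7_ne h hi) with h2 | h2
      · rw [Int.sign_eq_neg_one_of_neg h2]
        norm_num
        ring
      · rw [Int.sign_eq_one_of_pos h2]
        norm_num) (by
      intro σ hσ
      rw [Finset.mem_insert, Finset.mem_singleton] at hσ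
      exact Fw_of_dens hσ (hl σ hσ))
  have h2 : ∀ k : ℕ, (∑ σ ∈ ({1, -1} : Finset ℤ), ∑' x : {x : ℤ | x ∈ Lev d m r F (k + 1) ∧ 0 < σ * x},
      1 / |((x : ℤ) : ℝ)|) = ∑' x : {x : ℤ | x ∈ Lev d m r F (k + 1)}, 1 / |((x : ℤ) : ℝ)| := by
    intro k
    set W : Finset ℤ := (Lev_finite h hF (k + 1)).toFinset with hW
    have e1 : ∀ σ : ℤ, {x : ℤ | x ∈ Lev d m r F (k + 1) ∧ 0 < σ * x} =
        (W.filter fun x => 0 < σ * x : Finset ℤ) := by
      intro σ
      ext x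
      rw [Finset.mem_coe, Finset.mem_filter, hW, Set.Finite.mem_toFinset]
      rfl
    have e2 : {x : ℤ | x ∈ Lev d m r F (k + 1)} = (W : Finset ℤ) := by
      ext x
      rw [Finset.mem_coe, hW, Set.Finite.mem_toFinset]
      rfl
    rw [e2, Finset.tsum_subtype' W (fun x : ℤ => 1 / |(x : ℝ)|), Finset.sum_pair (by norm_num), e1, e1,
      Finset.tsum_subtype' _ (fun x : ℤ => 1 / |(x : ℝ)|),
      Finset.tsum_subtype' _ (fun x : ℤ => 1 / |(x : ℝ)|), Finset.sum_filter, Finset.sum_filter,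
      ← Finset.sum_add_distrib]
    refine sum_congr rfl fun x _ => ?_
    rcases lt_trichotomy x 0 with hx | hx | hx
    · rw [if_neg (by omega), if_pos (by omega), zero_add]
    · rw [hx]; simp
    · rw [if_pos (by omega), if_neg (by omega), add_zero]
  simp only [h2] at h1
  rw [Finset.sum_pair (by norm_num)] at h1
  exact (tendsto_add_atTop_iff_nat (f := fun k : ℕ => ∑' x : {x : ℤ | x ∈ Lev d m r F k},
    1 / |((x : ℤ) : ℝ)|) 1).1 h1

/-- one side -/
theorem one (h : Adm d m r) (hpos : ∀ i < d, 0 < m i) {F : Set ℤ} (hF : F.Finite)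
    (hT : ∀ x ∈ F, Tm d m r x ∈ F) {σ : ℤ} (hσ : σ = 1 ∨ σ = -1) {l : ℝ}
    (hl : Tendsto (fun X : ℝ => G (Bas d m r F) σ X / X) atTop (𝓝 l)) :
    Tendsto (fun k : ℕ => ∑' x : {x : ℤ | x ∈ Lev d m r F k ∧ 0 < σ * x}, 1 / |((x : ℤ) : ℝ)|) atTop
      (𝓝 (lam d m * l)) := by
  have h1 := level_law h hF hT (Sg := {σ}) (l := fun _ => l) (by
      intro σ' hσ'
      rw [Finset.mem_singleton] at hσ'
      rw [hσ']; exact hσ) (by
      intro i hi φ
      rw [Finset.sum_singleton, Finset.sum_singleton, Int.sign_eq_one_of_pos (hpos i hi), mul_one]) (by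
      intro σ' hσ'
      rw [Finset.mem_singleton] at hσ'
      rw [hσ']
      exact Fw_of_dens hσ hl)
  simp only [Finset.sum_singleton] at h1
  exact (tendsto_add_atTop_iff_nat (f := fun k : ℕ => ∑' x : {x : ℤ | x ∈ Lev d m r F k ∧ 0 < σ * x},
    1 / |((x : ℤ) : ℝ)|) 1).1 h1

/-- the integers whose trajectory is eventually periodic -/
def Cyc (d : ℕ) (m r : ℕ → ℤ) : Set ℤ :=
  {x | ∃ k p : ℕ, 1 ≤ p ∧ (Tm d m r)^[k + p] x = (Tm d m r)^[k] x}

theorem Cyc_inv (d : ℕ) (m r : ℕ → ℤ) : Inv d m r (Cyc d m r) := by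
  intro x
  constructor
  · rintro ⟨k, p, hp, h⟩
    refine ⟨k, p, hp, ?_⟩
    have h1 : (Tm d m r)^[k + p + 1] x = (Tm d m r)^[k + 1] x := by
      rw [Function.iterate_succ_apply', h, ← Function.iterate_succ_apply' (Tm d m r) k x]
    rw [Function.iterate_succ_apply, Function.iterate_succ_apply] at h1
    exact h1
  · rintro ⟨k, p, hp, h⟩
    refine ⟨k + 1, p, hp, ?_⟩
    rw [show k + 1 + p = (k + p) + 1 by ring, Function.iterate_succ_apply, Function.iterate_succ_apply]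
    exact h

/-- the terms of the eventually periodic trajectories which start in `[-y, y]` -/
def Fy (d : ℕ) (m r : ℕ → ℤ) (y : ℝ) : Set ℤ :=
  {z | ∃ x ∈ Cyc d m r, |(x : ℝ)| ≤ y ∧ ∃ k : ℕ, z = (Tm d m r)^[k] x}

theorem Fy_forward (d : ℕ) (m r : ℕ → ℤ) (y : ℝ) : ∀ x ∈ Fy d m r y, Tm d m r x ∈ Fy d m r y := by
  rintro _ ⟨x, hx, hxy, k, rfl⟩
  exact ⟨x, hx, hxy, k + 1, by rw [Function.iterate_succ_apply']⟩

theorem Fy_finite (d : ℕ) (m r : ℕ → ℤ) (y : ℝ) : (Fy d m r y).Finite := by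
  have h1 : Fy d m r y ⊆ ⋃ x ∈ {x : ℤ | |(x : ℝ)| ≤ y}, {z : ℤ | x ∈ Cyc d m r ∧ ∃ k : ℕ, z = (Tm d m r)^[k] x} := by
    rintro z ⟨x, hx, hxy, hk⟩
    rw [Set.mem_iUnion₂]
    exact ⟨x, hxy, hx, hk⟩
  refine Set.Finite.subset (Set.Finite.biUnion (fin_of_bdd (B := y) fun x hx => hx) ?_) h1
  intro x _
  by_cases hx : x ∈ Cyc d m r
  · obtain ⟨k, p, hp, h⟩ := hx
    have hall : ∀ n : ℕ, ∃ j < k + p, (Tm d m r)^[n] x = (Tm d m r)^[j] x := by
      intro n
      induction n using Nat.strong_induction_on with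
      | _ n ih =>
        rcases lt_or_ge n (k + p) with hn | hn
        · exact ⟨n, hn, rfl⟩
        · obtain ⟨j, hj, hj2⟩ := ih (n - p) (by omega)
          refine ⟨j, hj, ?_⟩
          rw [← hj2]
          have e1 : n = (n - (k + p)) + (k + p) := by omega
          have e2 : n - p = (n - (k + p)) + k := by omega
          rw [e2]
          conv_lhs => rw [e1]
          rw [Function.iterate_add_apply, h, ← Function.iterate_add_apply]
    apply ((Finset.range (k + p)).image fun j => (Tm d m r)^[j] x).finite_toSet.subset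
    rintro z ⟨-, n, rfl⟩
    obtain ⟨j, hj, hj2⟩ := hall n
    rw [Finset.mem_coe, Finset.mem_image]
    exact ⟨j, mem_range.2 hj, hj2.symm⟩
  · convert Set.finite_empty
    ext z
    simp [hx]

theorem Bas_Fy_sub (d : ℕ) (m r : ℕ → ℤ) (y : ℝ) : Bas d m r (Fy d m r y) ⊆ Cyc d m r := by
  rintro x ⟨k, x', hx', -, j, hj⟩
  rw [inv_iterate (Cyc_inv d m r) k x, hj]
  exact (inv_iterate (Cyc_inv d m r) j x').1 hx'

theorem avoid (d : ℕ) (m r : ℕ → ℤ) (y : ℝ) :
    ∀ x ∈ Cyc d m r \ Bas d m r (Fy d m r y), y < |(x : ℝ)| := by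
  rintro x ⟨h1, h2⟩
  by_contra hcon
  exact h2 ⟨0, x, h1, not_lt.1 hcon, 0, rfl⟩

theorem tail (h : Adm d m r) (B : ℕ) : ∃ C : ℝ, 0 < C ∧ ∀ S : Set ℤ, Inv d m r S → ∀ y : ℝ, 2 ≤ y →
    (∀ x ∈ S, y < |(x : ℝ)|) → ∀ σ : ℤ, (σ = 1 ∨ σ = -1) → ∀ X : ℝ, 1 ≤ X →
      G S σ X ≤ C * X / Real.log y ^ B := by
  obtain ⟨C, hC, hm⟩ := Pool.Agent.H319R3.GC.main h B
  refine ⟨C, hC, fun S hS y hy hav σ hσ X hX => ?_⟩
  refine le_trans ?_ (hm X y hX hy)
  unfold G
  refine Nat.cast_le.2 (Set.ncard_le_ncard ?_ (fin_of_bdd (B := X) fun x hx => hx.1))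
  rintro x ⟨h1, h2, h3⟩
  refine ⟨?_, fun k => hav _ ((inv_iterate hS k x).1 h1)⟩
  rw [abs_eq hσ x, abs_of_pos (by exact_mod_cast h2)]
  exact h3.le

/-- the masses for the integers which cycle -/
theorem cycling (h : Adm d m r) (B : ℕ) : ∃ C : ℝ, 0 < C ∧ ∀ y : ℝ, 2 ≤ y → ∀ σ : ℤ, (σ = 1 ∨ σ = -1) → ∀ p l : ℝ,
      Tendsto (fun X : ℝ => G (Cyc d m r) σ X / X) atTop (𝓝 p) →
      Tendsto (fun X : ℝ => G (Bas d m r (Fy d m r y)) σ X / X) atTop (𝓝 l) →
      0 ≤ p - l ∧ p - l ≤ C / Real.log y ^ B := by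
  obtain ⟨C, hC, ht⟩ := tail h B
  refine ⟨C, hC, fun y hy σ hσ p l hp hl => ?_⟩
  set A := Bas d m r (Fy d m r y) with hA
  have hAinv : Inv d m r A := Bas_inv (Fy_forward d m r y)
  have hDinv : Inv d m r (Cyc d m r \ A) := by
    intro x
    rw [Set.mem_sdiff, Set.mem_sdiff, Cyc_inv d m r x, hAinv x]
  have hsum : ∀ X, G (Cyc d m r) σ X = G A σ X + G (Cyc d m r \ A) σ X := by
    intro X
    have h1 := T14_union A (Cyc d m r \ A) Set.disjoint_sdiff_right hσ X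
    rw [Set.union_sdiff_cancel (Bas_Fy_sub d m r y)] at h1
    exact h1
  have hlim : Tendsto (fun X : ℝ => G (Cyc d m r \ A) σ X / X) atTop (𝓝 (p - l)) := by
    refine (hp.sub hl).congr fun X => ?_
    rw [hsum X]
    ring
  constructor
  · refine ge_of_tendsto hlim ?_
    filter_upwards [eventually_ge_atTop (1 : ℝ)] with X hX
    exact div_nonneg (T14_nonneg _ _ _) (by linarith)
  · refine le_of_tendsto hlim ?_
    filter_upwards [eventually_ge_atTop (1 : ℝ)] with X hX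
    rw [div_le_iff₀ (by linarith)]
    refine (ht _ hDinv y hy (avoid d m r y) σ hσ X hX).trans (le_of_eq (by ring))

end Pool.Agent.R623.LM
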